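import Pool.Agent.H7.Alt.TwoB

/-!
Alternating groups, case two: the final contradiction, and the main theorem.
-/

open Finset Equiv Equiv.Perm

namespace Pool.Agent.H7.HB

set_option linter.unusedSectionVars false

variable {α : Type} [Fintype α] [DecidableEq α] {T : Perm α → ℂ} {r : ℕ}

theorem rot_sign {u : ℕ} (hu : Odd u) (ι : ZMod u ↪ α) (e : Multiplicative (ZMod u)) :
    sign (rot ι e) = 1 := by
  have : (rot ι e) ^ u = 1 := by rw [← map_pow, mulZ_pow, map_one]
  exact sign_of_odd_pow hu this

theorem rot_apply {u : ℕ} (ι : ZMod u ↪ α) (e : Multiplicative (ZMod u)) (i : ZMod u) :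
    rot ι e (ι i) = ι (i + e.toAdd) := by
  rw [rot_eq, viaEmbeddingHom_apply, viaEmbedding_apply]
  rfl

theorem rot_fix {u : ℕ} (ι : ZMod u ↪ α) {e : Multiplicative (ZMod u)} {i : ZMod u}
    (h : rot ι e (ι i) = ι i) : e = 1 := by
  rw [rot_apply] at h
  have h1 := ι.injective h
  apply Multiplicative.toAdd.injective
  simpa using h1

theorem rot_zpow_disjoint {u : ℕ} (ι : ZMod u ↪ α) (e : Multiplicative (ZMod u)) {y : Perm α}
    (hy : ∀ i, y (ι i) = ι i) : Disjoint (rot ι e) y := by
  intro w
  by_cases hw : w ∈ Set.range ι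
  · obtain ⟨i, rfl⟩ := hw
    right
    exact hy i
  · left
    rw [rot_eq, viaEmbeddingHom_apply]
    exact viaEmbedding_apply_of_notMem _ _ _ hw

theorem prime_bound {u q n : ℕ} (hn : 18 ≤ n) (hu3 : 3 ∣ u) (hu0 : 0 < u) (hun : u ≤ n)
    (hq : q.Prime) (hqu : q ∣ u) : 2 * q + 2 ≤ n := by
  by_cases hq3 : q = 3
  · subst hq3
    omega
  · have h1 : Nat.Coprime 3 q := (Nat.coprime_primes Nat.prime_three hq).2 (Ne.symm hq3)
    have h2 : 3 * q ∣ u := h1.mul_dvd_of_dvd_of_dvd hu3 hqu
    have h3 := Nat.le_of_dvd hu0 h2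
    have h4 := hq.two_le
    by_cases h5 : q = 2
    · omega
    · omega

theorem oddpair (hT : TwoA T r) {u : ℕ} (hu : Odd u) (hu3 : 3 ∣ u) (hu9 : 3 < u)
    (hun : u ≤ Fintype.card α) (ι : ZMod u ↪ α) {e : Multiplicative (ZMod u)} (he : e ≠ 1)
    {y : Perm α} (hy : ∀ i, y (ι i) = ι i) {p : ℕ} (hp : Odd p)
    (hpp : ∀ q : ℕ, q.Prime → q ∣ p → 2 * q + 2 ≤ Fintype.card α) (hyp : y ^ p = 1) :
    T (rot ι e * y) = (r : ℂ) - (u + #y.support : ℕ) := by
  classical
  have : NeZero u := ⟨hu.pos.ne'⟩
  have hd := rot_zpow_disjoint ι e hy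
  have hru : (rot ι e) ^ u = 1 := by rw [← map_pow, mulZ_pow, map_one]
  set g := rot ι e * y with hg
  have hgu : g ^ (u * p) = 1 := by
    rw [hg, hd.commute.mul_pow, pow_mul, hru, one_pow, one_mul, mul_comm u p, pow_mul, hyp,
      one_pow]
  -- the period of ι 0
  have hpow : ∀ i : ℤ, (g ^ i) (ι 0) = ((rot ι e) ^ i) (ι 0) := by
    intro i
    rw [hg, hd.commute.mul_zpow, mul_apply]
    congr 1
    have : ∀ j : ℤ, (y ^ j) (ι 0) = ι 0 := fun j =>
      zpow_apply_eq_self_of_apply_eq_self (hy 0) j
    exact this i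
  obtain ⟨l, hl⟩ := exists_per g (ι 0)
  have hl1 : l ≠ 1 := by
    rintro rfl
    have h1 := (hl.2 1).2 (by simp)
    rw [hpow, zpow_one] at h1
    exact he (rot_fix ι h1)
  have hsf : Safe g ∨ ∃ (x : α) (q m : ℕ), q.Prime ∧ 1 < m ∧ HasPer g x (q * m) := by
    obtain ⟨q, hq, m, rfl⟩ := Nat.exists_prime_and_dvd hl1
    have hm : 0 < m := Nat.pos_of_mul_pos_left hl.1
    by_cases hm1 : 1 < m
    · exact Or.inr ⟨ι 0, q, m, hq, hm1, hl⟩
    · left
      have hm' : m = 1 := by omega
      subst hm'
      rw [mul_one] at hl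
      have h1 := (hl.2 q).2 (dvd_refl _)
      rw [hpow, zpow_natCast, ← map_pow] at h1
      have h2 := rot_fix ι h1
      have h3 : (rot ι e) ^ q = 1 := by rw [← map_pow, h2, map_one]
      have h4 := card_cycleType_of_prime hq h3
      rw [rot_card ι e he] at h4
      have hqu : q ∣ u := by
        have h5 := orderOf_dvd_of_pow_eq_one hru
        have h6 : orderOf (rot ι e) = q := by
          rcases (Nat.dvd_prime hq).1 (orderOf_dvd_of_pow_eq_one h3) with h7 | h7
          · rw [orderOf_eq_one_iff] at h7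
            exfalso
            exact he (rot_fix ι (i := 0) (by rw [h7]; rfl))
          · exact h7
        rwa [h6] at h5
      have h8 : 2 ≤ u / q := by
        obtain ⟨c, hc⟩ := hqu
        rw [hc, Nat.mul_div_cancel_left _ hq.pos]
        by_contra hlt
        have hc1 : c = 0 ∨ c = 1 := by omega
        rcases hc1 with rfl | rfl
        · omega
        · rw [mul_one] at hc
          rw [hc] at hu3
          have := (Nat.prime_dvd_prime_iff_eq Nat.prime_three hq).1 hu3
          omega
      refine safe_of_count (i := q) ?_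
      rw [hg, hd.cycleType_mul, Multiset.count_add, h4, Multiset.count_replicate_self]
      omega
  have hval := lemmaTA hT (u := u * p) (hu.mul hp) (fun q hq hqd => by
    rcases (Nat.Prime.dvd_mul hq).1 hqd with h1 | h1
    · exact prime_bound hT.hn hu3 hu.pos hun hq h1
    · exact hpp q hq h1) g hgu hsf
  rw [hval, hg, hd.card_support_mul, rot_card ι e he]

theorem final_coreA (hT : TwoA T r) {u : ℕ} (hu : Odd u) (hu3 : 3 ∣ u) (hu9 : 3 < u)
    (hun : u ≤ Fintype.card α) (ι : ZMod u ↪ α) {V : Type} [CommGroup V] [Fintype V]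
    (φ : V →* Perm α) (hφ : ∀ v, sign (φ v) = 1) (hd : ∀ v i, φ v (ι i) = ι i)
    (hv : ∀ v, v ≠ 1 → T (φ v) = (r : ℂ) - Fintype.card V)
    (hev : ∀ e v, e ≠ 1 → v ≠ 1 → T (rot ι e * φ v) = (r : ℂ) - u - Fintype.card V) :
    u + Fintype.card V ≤ r + 2 := by
  classical
  have : NeZero u := ⟨hu.pos.ne'⟩
  have hrot : ∀ e, e ≠ 1 → T (rot ι e) = (r : ℂ) - u := by
    intro e he
    have h1 := oddpair hT hu hu3 hu9 hun ι he (y := 1) (fun i => rfl) (p := 1) odd_one
      (fun q hq hq1 => absurd (Nat.dvd_one.1 hq1) hq.ne_one) (by simp)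
    rw [mul_one, support_one, card_empty, add_zero] at h1
    exact h1
  have hdis : ∀ e v, Disjoint (rot ι e) (φ v) := fun e v => rot_zpow_disjoint ι e (hd v)
  let Ψ : Multiplicative (ZMod u) × V →* Perm α :=
    MonoidHom.noncommCoprod (rot ι) φ (fun e v => (hdis e v).commute)
  have hΨ : ∀ e v, Ψ (e, v) = rot ι e * φ v := fun e v => rfl
  let Φ : Multiplicative (ZMod u) × V →* alternatingGroup α := liftA Ψ (by
    rintro ⟨e, v⟩
    rw [hΨ, Perm.sign_mul, rot_sign hu, hφ, one_mul])
  have hΦ : ∀ e v, ((Φ (e, v) : alternatingGroup α) : Perm α) = rot ι e * φ v := fun e v => rfl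
  have hcu : (Fintype.card (Multiplicative (ZMod u)) : ℂ) = u := by
    rw [card_M u]
  have E0 := mult_pair hT.heil Φ hT.hr (a := (r : ℂ) - u) (a' := (r : ℂ) - Fintype.card V)
    (b := (r : ℂ) - u - Fintype.card V)
    (fun e he => by
      change T (Φ (e, 1)) = _
      rw [hΦ, map_one, mul_one, hrot e he])
    (fun v hv' => by
      change T (Φ (1, v)) = _
      rw [hΦ, map_one, one_mul, hv v hv'])
    (fun e v he hv' => by
      change T (Φ (e, v)) = _
      rw [hΦ, hev e v he hv'])
    1
  rw [if_pos (by ext; rfl), if_pos (by ext; rfl), hcu] at E0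
  generalize mult hT.heil Φ 1 = m at E0
  have hu0 : (u : ℂ) ≠ 0 := by exact_mod_cast hu.pos.ne'
  have hV0 : (Fintype.card V : ℂ) ≠ 0 := card_ne_zero'
  have h1 : ((m : ℂ) + u + Fintype.card V) * (u * Fintype.card V)
      = ((r : ℂ) + 2) * (u * Fintype.card V) := by
    linear_combination E0
  have h2 := mul_right_cancel₀ (mul_ne_zero hu0 hV0) h1
  have h3 : m + u + Fintype.card V = r + 2 := by exact_mod_cast h2
  omega

/-- the regular action of `Z` on points outside `ι` -/
noncomputable def regZ {u : ℕ} {Z : Type} [AddCommGroup Z] (ι : ZMod u ⊕ Z ↪ α) :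
    Multiplicative Z →* Perm α :=
  (viaEmbeddingHom ι).comp ((sumCongrHom (ZMod u) Z).comp (MonoidHom.prod 1
    { toFun := fun e => Equiv.addRight e.toAdd
      map_one' := by ext; simp
      map_mul' := by
        intro a b
        ext c
        simp only [toAdd_mul, coe_addRight, mul_apply]
        rw [add_comm a.toAdd, add_assoc] }))

theorem regZ_apply {u : ℕ} {Z : Type} [AddCommGroup Z] (ι : ZMod u ⊕ Z ↪ α)
    (e : Multiplicative Z) :
    regZ ι e = viaEmbeddingHom ι (Perm.sumCongr 1 (Equiv.addRight e.toAdd)) := rfl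

theorem regZ_fix {u : ℕ} {Z : Type} [AddCommGroup Z] (ι : ZMod u ⊕ Z ↪ α)
    (e : Multiplicative Z) (i : ZMod u) :
    regZ ι e (((Function.Embedding.inl).trans ι) i) = ((Function.Embedding.inl).trans ι) i := by
  rw [regZ_apply, viaEmbeddingHom_apply]
  change viaEmbedding _ ι (ι (Sum.inl i)) = ι (Sum.inl i)
  rw [viaEmbedding_apply]
  simp

theorem regZ_card {u : ℕ} [NeZero u] {Z : Type} [AddCommGroup Z] [Fintype Z] [DecidableEq Z]
    (ι : ZMod u ⊕ Z ↪ α) {e : Multiplicative Z} (he : e ≠ 1) :
    #(regZ ι e).support = Fintype.card Z := by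
  rw [regZ_apply, via_card, card_support_sumCongr, support_one, card_empty, zero_add]
  have h1 : (Equiv.addRight e.toAdd : Perm Z).support = univ := by
    ext i
    simp only [mem_support, ne_eq, mem_univ, iff_true]
    intro h
    apply he
    apply Multiplicative.toAdd.injective
    have h2 : i + e.toAdd = i := h
    simpa using h2
  rw [h1, card_univ]

theorem final_odd (hT : TwoA T r) {u : ℕ} (hu : Odd u) (hu3 : 3 ∣ u) (hu9 : 3 < u) {p : ℕ}
    (hp : p.Prime) (hp2 : p ≠ 2) (hpn : 2 * p + 2 ≤ Fintype.card α)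
    (hup : u + p ≤ Fintype.card α) : u + p ≤ r + 2 := by
  classical
  have : NeZero u := ⟨hu.pos.ne'⟩
  have : Fact p.Prime := ⟨hp⟩
  have hpo : Odd p := hp.odd_of_ne_two hp2
  have hemb : Fintype.card (ZMod u ⊕ ZMod p) ≤ Fintype.card α := by
    simp only [Fintype.card_sum, ZMod.card]
    exact hup
  obtain ⟨ι⟩ := Function.Embedding.nonempty_of_card_le hemb
  have hpow : ∀ v, (regZ ι v) ^ p = 1 := by
    intro v
    rw [← map_pow, mulZ_pow, map_one]
  have hcard : Fintype.card (Multiplicative (ZMod p)) = p := card_M p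
  have h1 := final_coreA hT hu hu3 hu9 (by omega) ((Function.Embedding.inl).trans ι) (regZ ι)
    (fun v => sign_of_odd_pow hpo (hpow v)) (fun v i => regZ_fix ι v i)
    (fun v hv => by
      rw [hcard]
      exact (lemmaQA hT hp hp2 hpn).1 _ (hpow v) (by rw [regZ_card ι hv, ZMod.card]))
    (fun e v he hv => by
      rw [hcard, oddpair hT hu hu3 hu9 (by omega) ((Function.Embedding.inl).trans ι) he
        (fun i => regZ_fix ι v i) hpo (fun q hq hqp => by
          rw [(Nat.prime_dvd_prime_iff_eq hq hp).1 hqp]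
          exact hpn) (hpow v), regZ_card ι hv, ZMod.card]
      push_cast
      ring)
  rw [hcard] at h1
  exact h1

theorem final_two (hT : TwoA T r) {u : ℕ} (hu : Odd u) (hu3 : 3 ∣ u) (hu9 : 3 < u)
    (Z : Type) [AddCommGroup Z] [Fintype Z] [DecidableEq Z] (hZ : ∀ z : Z, z + z = 0)
    (hZ4 : 4 ∣ Fintype.card Z)
    (huZ : u + Fintype.card Z ≤ Fintype.card α) : u + Fintype.card Z ≤ r + 2 := by
  classical
  have : NeZero u := ⟨hu.pos.ne'⟩
  have hZ4' : 4 ≤ Fintype.card Z := Nat.le_of_dvd Fintype.card_pos hZ4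
  have hemb : Fintype.card (ZMod u ⊕ Z) ≤ Fintype.card α := by
    simp only [Fintype.card_sum, ZMod.card]
    exact huZ
  obtain ⟨ι⟩ := Function.Embedding.nonempty_of_card_le hemb
  have hpow : ∀ v, (regZ ι v) ^ 2 = 1 := by
    intro v
    rw [← map_pow]
    have : v ^ 2 = 1 := by
      apply Multiplicative.toAdd.injective
      rw [toAdd_pow, toAdd_one, two_nsmul]
      exact hZ _
    rw [this, map_one]
  have hcard : Fintype.card (Multiplicative Z) = Fintype.card Z := Fintype.card_multiplicative Z
  have hsign : ∀ v, sign (regZ ι v) = 1 := by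
    intro v
    by_cases hv : v = 1
    · rw [hv, map_one, map_one]
    · rw [sign_of_sq (hpow v), regZ_card ι hv]
      have : Even (Fintype.card Z / 2) := by
        obtain ⟨c, hc⟩ := hZ4
        rw [hc]
        exact ⟨c, by omega⟩
      exact this.neg_one_pow
  have hval : ∀ v, v ≠ 1 → T (regZ ι v) = (r : ℂ) - Fintype.card Z := by
    intro v hv
    rw [hT.inv _ (hpow v) (hsign v), regZ_card ι hv]
  let ι' := (Function.Embedding.inl (α := ZMod u) (β := Z)).trans ι
  have h1 := final_coreA hT hu hu3 hu9 (by omega) ι' (regZ ι)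
    hsign (fun v i => regZ_fix ι v i)
    (fun v hv => by
      rw [hcard]
      exact hval v hv)
    (fun e v he hv => by
      have hru : (rot ι' e) ^ u = 1 := by rw [← map_pow, mulZ_pow, map_one]
      have hdis : ∀ v, Disjoint (rot ι' e) (regZ ι v) := fun v =>
        rot_zpow_disjoint ι' e (fun i => regZ_fix ι v i)
      have hrot : T (rot ι' e) = (r : ℂ) - u := by
        have h1 := oddpair hT hu hu3 hu9 (by omega) ι' he (y := 1) (fun i => rfl) (p := 1) odd_one
          (fun q hq hq1 => absurd (Nat.dvd_one.1 hq1) hq.ne_one) (by simp)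
        rw [mul_one, support_one, card_empty, add_zero] at h1
        exact h1
      have h2 := disjoint_shiftA hT.heil (regZ ι) hsign (x := rot ι' e) (rot_sign hu _ _)
        (fun v => by
          rw [mul_inv_eq_iff_eq_mul]
          exact (hdis v).commute)
        (odd_of_dvd (orderOf_dvd_of_pow_eq_one hru) hu)
        (fun v => by
          refine hT.heil.of_isConj ?_ ?_ (isConj_disjoint_inv (hdis v).symm)
          · rw [Perm.sign_mul, Perm.sign_inv, hsign, rot_sign hu, one_mul]
          · by_cases hv1 : v = 1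
            · rw [hv1, map_one, one_mul]
              apply safe_of_card
              rw [support_inv, rot_card ι' e he]
              omega
            · refine safe_of_even (i := 2) ?_ even_two
              rw [(Disjoint.inv_right (hdis v).symm).cycleType_mul, Multiset.mem_add]
              left
              rw [card_cycleType_of_prime Nat.prime_two (hpow v), Multiset.mem_replicate,
                regZ_card ι hv1]
              exact ⟨by omega, rfl⟩)
        (fun v hv' => by rw [hT.hr, hcard]; exact hval v hv')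
        v hv
      rw [(hdis v).commute.eq, h2, hrot, hcard])
  rw [hcard] at h1
  exact h1

theorem two_falseA (hT : TwoA T r) (hrn : r + 3 ≤ Fintype.card α) : False := by
  classical
  have hn := hT.hn
  have hZ2 : ∀ i : ZMod 2, i + i = 0 := by decide
  have cases6 : Fintype.card α % 6 = 0 ∨ Fintype.card α % 6 = 1 ∨ Fintype.card α % 6 = 2 ∨
      Fintype.card α % 6 = 3 ∨ Fintype.card α % 6 = 4 ∨ Fintype.card α % 6 = 5 := by omega
  have triv : ∀ u : ℕ, Odd u → 3 ∣ u → 3 < u → u ≤ Fintype.card α → u + 1 ≤ r + 2 := by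
    intro u hu hu3 hu9 hun
    have : NeZero u := ⟨hu.pos.ne'⟩
    obtain ⟨ι⟩ := Function.Embedding.nonempty_of_card_le
      (show Fintype.card (ZMod u) ≤ Fintype.card α by rw [ZMod.card]; exact hun)
    have h1 := final_coreA hT hu hu3 hu9 hun ι (V := Unit) 1 (fun v => by simp)
      (fun v i => rfl) (fun v hv => absurd (Subsingleton.elim v 1) hv)
      (fun e v _ hv => absurd (Subsingleton.elim v 1) hv)
    simpa using h1
  rcases cases6 with h | h | h | h | h | h
  · have hu : Odd (Fintype.card α - 3) := by rw [Nat.odd_iff]; omega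
    have h1 := final_odd hT hu (by omega) (by omega) Nat.prime_three (by decide) (by omega)
      (by omega)
    omega
  · have hu : Odd (Fintype.card α - 4) := by rw [Nat.odd_iff]; omega
    have hc : Fintype.card (ZMod 2 × ZMod 2) = 4 := by
      rw [Fintype.card_prod, ZMod.card]
    have h1 := final_two hT hu (by omega) (by omega) (ZMod 2 × ZMod 2)
      (fun z => Prod.ext (hZ2 _) (hZ2 _)) (by rw [hc]) (by rw [hc]; omega)
    rw [hc] at h1
    omega
  · have hu : Odd (Fintype.card α - 5) := by rw [Nat.odd_iff]; omega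
    have h1 := final_odd hT hu (by omega) (by omega) Nat.prime_five (by decide) (by omega)
      (by omega)
    omega
  · have hu : Odd (Fintype.card α) := by rw [Nat.odd_iff]; omega
    have h1 := triv _ hu (by omega) (by omega) le_rfl
    omega
  · have hu : Odd (Fintype.card α - 1) := by rw [Nat.odd_iff]; omega
    have h1 := triv _ hu (by omega) (by omega) (by omega)
    omega
  · have hu : Odd (Fintype.card α - 8) := by rw [Nat.odd_iff]; omega
    have hc : Fintype.card (ZMod 2 × ZMod 2 × ZMod 2) = 8 := by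
      rw [Fintype.card_prod, Fintype.card_prod, ZMod.card]
    have h1 := final_two hT hu (by omega) (by omega) (ZMod 2 × ZMod 2 × ZMod 2)
      (fun z => Prod.ext (hZ2 _) (Prod.ext (hZ2 _) (hZ2 _))) (by rw [hc]; norm_num)
      (by rw [hc]; omega)
    rw [hc] at h1
    omega

/-- **Main theorem on Heilbronn class functions of alternating groups**: degree at most `n - 3`
forces a constant function. -/
theorem mainA (h : HeilA T) (hr : T 1 = r) (hn : 18 ≤ Fintype.card α)
    (hrn : r + 3 ≤ Fintype.card α) {g : Perm α} (hg : sign g = 1) : T g = r := by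
  obtain ⟨d, hd, hinv⟩ := even_involutionsA h hr hn hrn
  have hd' : d = 0 ∨ d = 1 := by omega
  rcases hd' with rfl | rfl
  · exact case_oneA h hr hn (fun x hx hs => by rw [hinv x hx hs]; simp) hg
  · exact (two_falseA ⟨h, hr, hn, fun x hx hs => by rw [hinv x hx hs]; simp⟩ hrn).elim

end Pool.Agent.H7.HB
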