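import Pool.Agent.H7.Heil.Main

/-!
Heilbronn class functions on alternating groups: basic tools, and induction to the symmetric group.
-/

open Finset Equiv Equiv.Perm

namespace Pool.Agent.H7.HB

set_option linter.unusedSectionVars false

variable {α : Type} [Fintype α] [DecidableEq α]

/-- Functions on permutations whose restriction to the even ones is a Heilbronn class function of the
alternating group. -/
def HeilA (T : Perm α → ℂ) : Prop := Heil (fun x : alternatingGroup α => T x)

/-- lift a homomorphism with even values -/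
def liftA {K : Type} [Group K] (φ : K →* Perm α) (hφ : ∀ k, sign (φ k) = 1) :
    K →* alternatingGroup α :=
  φ.codRestrict (alternatingGroup α) (fun k => mem_alternatingGroup.2 (hφ k))

theorem liftA_coe {K : Type} [Group K] (φ : K →* Perm α) (hφ : ∀ k, sign (φ k) = 1) (k : K) :
    ((liftA φ hφ k : alternatingGroup α) : Perm α) = φ k := rfl

variable {T : Perm α → ℂ}

theorem HeilA.conj_even (h : HeilA T) {g x : Perm α} (hg : sign g = 1) (hx : sign x = 1) :
    T (g * x * g⁻¹) = T x :=
  Heil.conj h (⟨g, mem_alternatingGroup.2 hg⟩ : alternatingGroup α) ⟨x, mem_alternatingGroup.2 hx⟩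

/-- the conjugacy class of `g` does not split in the alternating group -/
def Safe (g : Perm α) : Prop := ¬ (Subgroup.centralizer {g} ≤ alternatingGroup α)

theorem Safe.exists {g : Perm α} (h : Safe g) : ∃ s : Perm α, sign s = -1 ∧ Commute s g := by
  unfold Safe at h
  rw [SetLike.not_le_iff_exists] at h
  obtain ⟨s, hs1, hs2⟩ := h
  refine ⟨s, ?_, ?_⟩
  · rcases Int.units_eq_one_or (sign s) with h1 | h1
    · exact absurd (mem_alternatingGroup.2 h1) hs2
    · exact h1
  · exact ((Subgroup.mem_centralizer_iff.1 hs1) g rfl).symm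

theorem safe_iff {g : Perm α} : Safe g ↔ ¬ ((∀ c ∈ g.cycleType, Odd c) ∧
    Fintype.card α ≤ g.cycleType.sum + 1 ∧ ∀ i, g.cycleType.count i ≤ 1) := by
  unfold Safe
  rw [centralizer_le_alternating_iff]

theorem safe_congr {g g' : Perm α} (h : g.cycleType = g'.cycleType) : Safe g ↔ Safe g' := by
  rw [safe_iff, safe_iff, h]

theorem safe_of_card {g : Perm α} (h : #g.support + 2 ≤ Fintype.card α) : Safe g := by
  rw [safe_iff]
  rintro ⟨-, h2, -⟩
  rw [sum_cycleType] at h2
  omega

theorem safe_of_count {g : Perm α} {i : ℕ} (h : 2 ≤ g.cycleType.count i) : Safe g := by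
  rw [safe_iff]
  rintro ⟨-, -, h2⟩
  have := h2 i
  omega

theorem safe_of_even {g : Perm α} {i : ℕ} (hi : i ∈ g.cycleType) (he : Even i) : Safe g := by
  rw [safe_iff]
  rintro ⟨h2, -, -⟩
  have := h2 i hi
  rw [← Nat.not_even_iff_odd] at this
  exact this he

theorem HeilA.of_isConj (h : HeilA T) {x y : Perm α} (hx : sign x = 1) (hs : Safe x)
    (hxy : IsConj x y) : T x = T y := by
  obtain ⟨c, hc⟩ := isConj_iff.1 hxy
  rcases Int.units_eq_one_or (sign c) with h1 | h1
  · rw [← hc, h.conj_even h1 hx]
  · obtain ⟨s, hs1, hs2⟩ := hs.exists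
    have h2 : c * x * c⁻¹ = (c * s) * x * (c * s)⁻¹ := by
      rw [mul_inv_rev, mul_assoc c s x, hs2.eq]
      group
    rw [← hc, h2, h.conj_even (by rw [Perm.sign_mul, h1, hs1]; decide) hx]

theorem safe_of_sq {x : Perm α} (hx : x ^ 2 = 1) (h2 : 2 ≤ Fintype.card α) : Safe x := by
  by_cases h1 : x = 1
  · subst h1
    apply safe_of_card
    simp [h2]
  · have h3 := card_cycleType_of_prime Nat.prime_two hx
    have h4 : 2 ≤ #x.support := two_le_card_support_of_ne_one h1
    refine safe_of_even (i := 2) ?_ even_two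
    rw [h3, Multiset.mem_replicate]
    exact ⟨by omega, rfl⟩

/-! ### induction to the symmetric group -/

/-- the induced class function, `s` being an odd permutation -/
noncomputable def indA (T : Perm α → ℂ) (s g : Perm α) : ℂ :=
  if sign g = 1 then T g + T (s * g * s⁻¹) else 0

theorem indA_even {s g : Perm α} (hg : sign g = 1) : indA T s g = T g + T (s * g * s⁻¹) :=
  if_pos hg

theorem indA_odd {s g : Perm α} (hg : sign g ≠ 1) : indA T s g = 0 := if_neg hg

theorem sign_conj' (g x : Perm α) : sign (g * x * g⁻¹) = sign x := by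
  rw [Perm.sign_mul, Perm.sign_mul, Perm.sign_inv, mul_right_comm, Int.units_mul_self, one_mul]

theorem HeilA.conj_odd (h : HeilA T) {s g x : Perm α} (hs : sign s = -1) (hg : sign g = -1)
    (hx : sign x = 1) : T (g * x * g⁻¹) = T (s * x * s⁻¹) := by
  have h1 : g * x * g⁻¹ = (g * s⁻¹) * (s * x * s⁻¹) * (g * s⁻¹)⁻¹ := by group
  rw [h1, h.conj_even (by rw [Perm.sign_mul, Perm.sign_inv, hg, hs]; decide)
    (by rw [sign_conj', hx])]

theorem heil_indA (h : HeilA T) {s : Perm α} (hs : sign s = -1) : Heil (indA T s) where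
  conj g x := by
    by_cases hx : sign x = 1
    · have hx' : sign (g * x * g⁻¹) = 1 := by rw [sign_conj', hx]
      rw [indA_even hx', indA_even hx]
      rcases Int.units_eq_one_or (sign g) with h1 | h1
      · rw [h.conj_even h1 hx]
        congr 1
        have h2 : s * (g * x * g⁻¹) * s⁻¹ = (s * g) * x * (s * g)⁻¹ := by group
        rw [h2]
        exact h.conj_odd hs (by rw [Perm.sign_mul, hs, h1]; decide) hx
      · rw [h.conj_odd hs h1 hx, add_comm]
        congr 1
        have h2 : s * (g * x * g⁻¹) * s⁻¹ = (s * g) * x * (s * g)⁻¹ := by group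
        rw [h2]
        exact h.conj_even (by rw [Perm.sign_mul, hs, h1]; decide) hx
    · have hx' : sign (g * x * g⁻¹) ≠ 1 := by rw [sign_conj']; exact hx
      rw [indA_odd hx', indA_odd hx]
  coeff K _ _ φ ψ := by
    classical
    let K0 : Subgroup K := (sign.comp φ).ker
    let _ : Fintype K0 := Fintype.ofFinite K0
    have hK0 : ∀ k : K, k ∈ K0 ↔ sign (φ k) = 1 := fun k => MonoidHom.mem_ker
    let φ0 : K0 →* Perm α := φ.comp K0.subtype
    let φ1 : K0 →* Perm α := (MulAut.conj s).toMonoidHom.comp φ0
    have h0 : ∀ k : K0, sign (φ (k : K)) = 1 := fun k => (hK0 k).1 k.2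
    have h1 : ∀ k, sign (φ1 k) = 1 := fun k => by
      change sign (s * φ k * s⁻¹) = 1
      rw [sign_conj', h0]
    obtain ⟨m0, hm0⟩ := Heil.coeff h K0 (liftA φ0 h0) (ψ.comp K0.subtype)
    obtain ⟨m1, hm1⟩ := Heil.coeff h K0 (liftA φ1 h1) (ψ.comp K0.subtype)
    change ∑ k : K0, T (φ k) * (((ψ k)⁻¹ : ℂˣ) : ℂ) = _ at hm0
    change ∑ k : K0, T (s * φ k * s⁻¹) * (((ψ k)⁻¹ : ℂˣ) : ℂ) = _ at hm1
    have hsum : ∑ k : K, indA T s (φ k) * (((ψ k)⁻¹ : ℂˣ) : ℂ)
        = ∑ k : K0, T (φ k) * (((ψ k)⁻¹ : ℂˣ) : ℂ)
          + ∑ k : K0, T (s * φ k * s⁻¹) * (((ψ k)⁻¹ : ℂˣ) : ℂ) := by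
      rw [← Finset.sum_add_distrib]
      symm
      refine Fintype.sum_of_injective (fun k : K0 => (k : K)) Subtype.val_injective _ _ ?_ ?_
      · intro k hk
        rw [indA_odd, zero_mul]
        intro h2
        exact hk ⟨⟨k, (hK0 k).2 h2⟩, rfl⟩
      · intro k
        rw [indA_even (h0 k)]
        change _ = (T (φ k) + T (s * φ k * s⁻¹)) * _
        ring
    by_cases hall : ∀ k : K, sign (φ k) = 1
    · refine ⟨m0 + m1, ?_⟩
      have hc : Fintype.card K0 = Fintype.card K := by
        have : K0 = ⊤ := by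
          rw [eq_top_iff]
          intro k _
          exact (hK0 k).2 (hall k)
        rw [← Nat.card_eq_fintype_card, ← Nat.card_eq_fintype_card, this, Subgroup.card_top]
      rw [hsum, hm0, hm1, hc]
      push_cast
      ring
    · push Not at hall
      obtain ⟨κ, hκ⟩ := hall
      have hκ' : sign (φ κ) = -1 := by
        rcases Int.units_eq_one_or (sign (φ κ)) with h2 | h2
        · exact absurd h2 hκ
        · exact h2
      refine ⟨m0, ?_⟩
      have hc : Fintype.card K = 2 * Fintype.card K0 := by
        have h2 := K0.card_mul_index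
        have h3 : K0.index = 2 := by
          change (sign.comp φ).ker.index = 2
          rw [Subgroup.index_ker]
          have h4 : (sign.comp φ).range = ⊤ := by
            rw [eq_top_iff]
            intro z _
            rcases Int.units_eq_one_or z with rfl | rfl
            · exact one_mem _
            · exact ⟨κ, hκ'⟩
          rw [h4, Subgroup.card_top]
          simp
        rw [h3, Nat.card_eq_fintype_card, Nat.card_eq_fintype_card] at h2
        omega
      have heq : ∑ k : K0, T (s * φ k * s⁻¹) * (((ψ k)⁻¹ : ℂˣ) : ℂ)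
          = ∑ k : K0, T (φ k) * (((ψ k)⁻¹ : ℂˣ) : ℂ) := by
        let e : K0 ≃ K0 :=
          { toFun := fun k => ⟨κ * k * κ⁻¹, by
              rw [hK0, map_mul φ, map_mul φ, map_inv φ, sign_conj']
              exact h0 k⟩
            invFun := fun k => ⟨κ⁻¹ * k * κ, by
              rw [hK0, map_mul φ, map_mul φ, map_inv φ]
              have := sign_conj' (φ κ)⁻¹ (φ k)
              rw [inv_inv] at this
              rw [this]
              exact h0 k⟩
            left_inv := fun k => by
              apply Subtype.ext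
              change κ⁻¹ * (κ * k * κ⁻¹) * κ = k
              group
            right_inv := fun k => by
              apply Subtype.ext
              change κ * (κ⁻¹ * k * κ) * κ⁻¹ = k
              group }
        rw [← Equiv.sum_comp e (fun k : K0 => T (φ k) * (((ψ k)⁻¹ : ℂˣ) : ℂ))]
        refine Finset.sum_congr rfl fun k _ => ?_
        change _ = T (φ (κ * k * κ⁻¹)) * (((ψ (κ * k * κ⁻¹))⁻¹ : ℂˣ) : ℂ)
        have h5 : ψ (κ * k * κ⁻¹) = ψ k := by
          rw [map_mul, map_mul, map_inv, mul_right_comm, mul_inv_cancel, one_mul]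
        rw [h5, map_mul, map_mul, map_inv, h.conj_odd hs hκ' (h0 k)]
      rw [hsum, heq, hm0, hc]
      push_cast
      ring

end Pool.Agent.H7.HB
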