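import Pool.Agent.H7.Alt.Invol

/-!
Alternating groups, case two: values on cycles of prime length, by restriction to a symmetric group
on two points less.
-/

open Finset Equiv Equiv.Perm

namespace Pool.Agent.H7.HB

set_option linter.unusedSectionVars false

variable {α : Type} [Fintype α] [DecidableEq α] {T : Perm α → ℂ} {r : ℕ}

/-- standing hypotheses of case two -/
structure TwoA (T : Perm α → ℂ) (r : ℕ) : Prop where
  heil : HeilA T
  hr : T 1 = r
  hn : 18 ≤ Fintype.card α
  inv : ∀ x : Perm α, x ^ 2 = 1 → sign x = 1 → T x = (r : ℂ) - #x.support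

/-- signs as permutations of two points -/
def sg2 : ℤˣ →* Perm (Fin 2) where
  toFun u := if u = 1 then 1 else swap 0 1
  map_one' := if_pos rfl
  map_mul' := by decide

theorem sg2_sign (u : ℤˣ) : sign (sg2 u) = u := by
  rcases Int.units_eq_one_or u with rfl | rfl
  · simp
  · decide

/-- the symmetric group on two points less as a group of even permutations -/
noncomputable def JJ {m : ℕ} (ι : Fin m ⊕ Fin 2 ↪ α) : Perm (Fin m) →* Perm α :=
  (viaEmbeddingHom ι).comp ((sumCongrHom (Fin m) (Fin 2)).comp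
    (MonoidHom.prod (MonoidHom.id _) (sg2.comp sign)))

theorem JJ_apply {m : ℕ} (ι : Fin m ⊕ Fin 2 ↪ α) (x : Perm (Fin m)) :
    JJ ι x = viaEmbeddingHom ι (Perm.sumCongr x (sg2 (sign x))) := rfl

theorem JJ_sign {m : ℕ} (ι : Fin m ⊕ Fin 2 ↪ α) (x : Perm (Fin m)) : sign (JJ ι x) = 1 := by
  rw [JJ_apply, via_sign, sign_sumCongr, sg2_sign]
  exact Int.units_mul_self _

theorem JJ_card {m : ℕ} (ι : Fin m ⊕ Fin 2 ↪ α) {x : Perm (Fin m)} (hx : sign x = 1) :
    #(JJ ι x).support = #x.support := by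
  rw [JJ_apply, via_card, card_support_sumCongr, hx, map_one, support_one, card_empty, add_zero]

theorem restrict_two (hT : TwoA T r) {m : ℕ} (hm : m + 2 = Fintype.card α)
    (ι : Fin m ⊕ Fin 2 ↪ α) : Two (fun x : Perm (Fin m) => T (JJ ι x)) r where
  heil := Heil.comp hT.heil (liftA (JJ ι) (JJ_sign ι))
  hr := by
    change T (JJ ι 1) = r
    rw [map_one, hT.hr]
  hn := by
    have := hT.hn
    rw [Fintype.card_fin]
    omega
  inv x hx hs := by
    change T (JJ ι x) = _
    rw [hT.inv _ (by rw [← map_pow, hx, map_one]) (JJ_sign ι x), JJ_card ι hs]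

theorem sign_of_odd_pow {x : Perm α} {q : ℕ} (hq : Odd q) (hx : x ^ q = 1) : sign x = 1 :=
  sign_of_order_odd hq hx

theorem lemmaQA (hT : TwoA T r) {q : ℕ} (hq : q.Prime) (hq2 : q ≠ 2)
    (hqn : 2 * q + 2 ≤ Fintype.card α) :
    (∀ x : Perm α, x ^ q = 1 → #x.support = q → T x = (r : ℂ) - q) ∧
    (∀ x : Perm α, x ^ q = 1 → #x.support = 2 * q → T x = (r : ℂ) - 2 * q) := by
  classical
  have : Fact q.Prime := ⟨hq⟩
  have hqo : Odd q := hq.odd_of_ne_two hq2
  have hn := hT.hn
  obtain ⟨m, hm⟩ : ∃ m, m + 2 = Fintype.card α := ⟨Fintype.card α - 2, by omega⟩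
  have hemb : Fintype.card (Fin m ⊕ Fin 2) ≤ Fintype.card α := by
    rw [Fintype.card_sum, Fintype.card_fin, Fintype.card_fin]
    omega
  obtain ⟨ι⟩ := Function.Embedding.nonempty_of_card_le hemb
  obtain ⟨Q1, Q2⟩ := lemmaQ (restrict_two hT hm ι) hq hq2 (by rw [Fintype.card_fin]; omega)
  have hemb' : Fintype.card (ZMod q ⊕ ZMod q) ≤ Fintype.card (Fin m) := by
    rw [Fintype.card_sum, ZMod.card, Fintype.card_fin]
    omega
  obtain ⟨j⟩ := Function.Embedding.nonempty_of_card_le hemb'
  have h1ne := ofAdd_one_ne q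
  constructor
  · intro x hx hxc
    let y := pairP j (Multiplicative.ofAdd 1, 1)
    have hy : y ^ q = 1 := pairP_pow j _
    have hyc : #y.support = q := by
      rw [pairP_card]
      simp only [addP_card q h1ne, addP_one_card, add_zero]
    have h1 := Q1 y hy hyc
    have h2 : T x = T (JJ ι y) := by
      refine hT.heil.of_isConj (sign_of_odd_pow hqo hx) (safe_of_card (by omega))
        (isConj_of_prime hq hx (by rw [← map_pow, hy, map_one]) ?_)
      rw [JJ_card ι (sign_of_odd_pow hqo hy), hxc, hyc]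
    rw [h2]
    exact h1
  · intro x hx hxc
    let y := pairP j (Multiplicative.ofAdd 1, Multiplicative.ofAdd 1)
    have hy : y ^ q = 1 := pairP_pow j _
    have hyc : #y.support = 2 * q := by
      rw [pairP_card]
      simp only [addP_card q h1ne]
      ring
    have h1 := Q2 y hy hyc
    have h2 : T x = T (JJ ι y) := by
      refine hT.heil.of_isConj (sign_of_odd_pow hqo hx) (safe_of_card (by omega))
        (isConj_of_prime hq hx (by rw [← map_pow, hy, map_one]) ?_)
      rw [JJ_card ι (sign_of_odd_pow hqo hy), hxc, hyc]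
    rw [h2]
    exact h1

theorem x11A (hT : TwoA T r) {q : ℕ} (hq : q.Prime) (hq2 : q ≠ 2)
    (hqn : 2 * q + 2 ≤ Fintype.card α)
    {E : Type} [CommGroup E] [Fintype E] (φ : E →* alternatingGroup α)
    (hφ : Function.Injective φ)
    (κ : E →* ℂˣ) (a a1 : E) (h1 : (φ a : Perm α).IsCycle) (h1c : #(φ a : Perm α).support = q)
    (h2 : (φ a1 : Perm α).IsCycle) (h2c : #(φ a1 : Perm α).support = q)
    (hd : Disjoint (φ a : Perm α) (φ a1))
    (hm : mult hT.heil φ κ ≠ 0) : κ a = 1 ∨ κ a1 = 1 := by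
  classical
  by_contra hcon
  push Not at hcon
  obtain ⟨hc1, hc2⟩ := hcon
  let A := Subgroup.zpowers a
  let B := Subgroup.zpowers a1
  let _ : Fintype A := Fintype.ofFinite A
  let _ : Fintype B := Fintype.ofFinite B
  let i : A × B →* E := MonoidHom.coprod A.subtype B.subtype
  have hoa : orderOf (φ a : Perm α) = q := by rw [h1.orderOf, h1c]
  have hob : orderOf (φ a1 : Perm α) = q := by rw [h2.orderOf, h2c]
  have hmemA : ∀ e : A, (φ e : Perm α) ∈ Subgroup.zpowers (φ a : Perm α) := by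
    rintro ⟨_, k, rfl⟩
    exact ⟨k, by simp⟩
  have hmemB : ∀ e : B, (φ e : Perm α) ∈ Subgroup.zpowers (φ a1 : Perm α) := by
    rintro ⟨_, k, rfl⟩
    exact ⟨k, by simp⟩
  have hneA : ∀ e : A, e ≠ 1 → (φ e : Perm α) ≠ 1 := by
    intro e he h
    apply he
    apply Subtype.ext
    exact hφ (Subtype.ext (by rw [h]; simp))
  have hneB : ∀ e : B, e ≠ 1 → (φ e : Perm α) ≠ 1 := by
    intro e he h
    apply he
    apply Subtype.ext
    exact hφ (Subtype.ext (by rw [h]; simp))
  have hpa : (φ a : Perm α) ^ q = 1 := by rw [← hoa]; exact pow_orderOf_eq_one _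
  have hpb : (φ a1 : Perm α) ^ q = 1 := by rw [← hob]; exact pow_orderOf_eq_one _
  obtain ⟨Q1, Q2⟩ := lemmaQA hT hq hq2 hqn
  have hA : ∀ e : A, e ≠ 1 → T ((φ.comp i) (e, 1)) = r - q := by
    intro e he
    have : (φ.comp i) (e, 1) = φ e := by
      change φ ((e : E) * ((1 : B) : E)) = φ e
      simp
    rw [this]
    exact Q1 _ (pow_of_mem_zpowers hpa (hmemA e))
      (by rw [supp_of_mem_zpowers h1 (hmemA e) (hneA e he), h1c])
  have hB : ∀ e : B, e ≠ 1 → T ((φ.comp i) (1, e)) = r - q := by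
    intro e he
    have : (φ.comp i) (1, e) = φ e := by
      change φ (((1 : A) : E) * (e : E)) = φ e
      simp
    rw [this]
    exact Q1 _ (pow_of_mem_zpowers hpb (hmemB e))
      (by rw [supp_of_mem_zpowers h2 (hmemB e) (hneB e he), h2c])
  have hAB : ∀ (e : A) (e' : B), e ≠ 1 → e' ≠ 1 → T ((φ.comp i) (e, e')) = r - 2 * q := by
    intro e e' he he'
    have h3 : (((φ.comp i) (e, e') : alternatingGroup α) : Perm α)
        = (φ e : Perm α) * (φ e' : Perm α) := by
      change ((φ ((e : E) * (e' : E)) : alternatingGroup α) : Perm α) = _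
      rw [map_mul]
      rfl
    have hdis : Disjoint (φ e : Perm α) (φ e' : Perm α) := by
      obtain ⟨k, hk⟩ := hmemA e
      obtain ⟨l, hl⟩ := hmemB e'
      rw [← hk, ← hl]
      exact hd.zpow_disjoint_zpow k l
    rw [h3]
    refine Q2 _ ?_ ?_
    · rw [hdis.commute.mul_pow, pow_of_mem_zpowers hpa (hmemA e),
        pow_of_mem_zpowers hpb (hmemB e'), one_mul]
    · rw [hdis.card_support_mul, supp_of_mem_zpowers h1 (hmemA e) (hneA e he),
        supp_of_mem_zpowers h2 (hmemB e') (hneB e' he'), h1c, h2c]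
      ring
  have E0 := mult_pair hT.heil (φ.comp i) hT.hr hA hB hAB (κ.comp i)
  rw [if_neg (by
    intro h'
    apply hc1
    have h3 := DFunLike.congr_fun h' ⟨a, Subgroup.mem_zpowers a⟩
    change κ (a * ((1 : B) : E)) = 1 at h3
    simpa using h3), if_neg (by
    intro h'
    apply hc2
    have h3 := DFunLike.congr_fun h' ⟨a1, Subgroup.mem_zpowers a1⟩
    change κ (((1 : A) : E) * a1) = 1 at h3
    simpa using h3)] at E0
  have hA0 : (Fintype.card A : ℂ) ≠ 0 := card_ne_zero'
  have hB0 : (Fintype.card B : ℂ) ≠ 0 := card_ne_zero'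
  have h3 : (mult hT.heil (φ.comp i) (κ.comp i) : ℂ) * (Fintype.card A * Fintype.card B) = 0 := by
    rw [E0]
    ring
  have h4 : mult hT.heil (φ.comp i) (κ.comp i) = 0 := by
    rcases mul_eq_zero.1 h3 with h5 | h5
    · exact_mod_cast h5
    · exact absurd h5 (mul_ne_zero hA0 hB0)
  have h5 := mult_le_comp hT.heil φ i κ
  omega

end Pool.Agent.H7.HB
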