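import Pool.Agent.H7.Alt.Two

/-!
Alternating groups, case two: values on elements of odd order.
-/

open Finset Equiv Equiv.Perm

namespace Pool.Agent.H7.HB

set_option linter.unusedSectionVars false

variable {α : Type} [Fintype α] [DecidableEq α] {T : Perm α → ℂ} {r : ℕ}

theorem split_conjA (h : HeilA T) {g z : Perm α} (hg : sign g = 1) (hz : sign z = 1)
    (hcomm : ∀ i : ℤ, Commute z (g ^ i * z * g ^ (-i)))
    (hE : ∀ (E : Type) [CommGroup E] [Fintype E] (φ : E →* alternatingGroup α) (κ : E →* ℂˣ)
      (a b : E), Function.Injective φ → (φ a : Perm α) = z → (φ b : Perm α) = g * z * g⁻¹ →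
      mult h φ κ ≠ 0 → κ a = κ b → κ a = 1) :
    T (z⁻¹ * g) = T g := by
  let ga : alternatingGroup α := ⟨g, mem_alternatingGroup.2 hg⟩
  let za : alternatingGroup α := ⟨z, mem_alternatingGroup.2 hz⟩
  have := split_conj h ga za (fun i => by
    apply Subtype.ext
    have h1 := (hcomm i).eq
    have h2 : ((ga ^ i * za * ga ^ (-i) : alternatingGroup α) : Perm α)
        = g ^ i * z * g ^ (-i) := by
      simp [ga, za]
    change z * ((ga ^ i * za * ga ^ (-i) : alternatingGroup α) : Perm α)
      = ((ga ^ i * za * ga ^ (-i) : alternatingGroup α) : Perm α) * z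
    rw [h2]
    exact h1) (fun E _ _ φ κ a b hφ ha hb hm hab =>
      hE E φ κ a b hφ (congrArg Subtype.val ha) (congrArg Subtype.val hb) hm hab)
  exact this

theorem disjoint_shiftA (h : HeilA T) {V : Type} [CommGroup V] [Fintype V] (φ : V →* Perm α)
    (hφ : ∀ v, sign (φ v) = 1) {x : Perm α} (hx : sign x = 1)
    (hcomm : ∀ v, x * φ v * x⁻¹ = φ v) (hodd : Odd (orderOf x))
    (hinv : ∀ v, T (φ v * x⁻¹) = T (φ v * x))
    (hval : ∀ v, v ≠ 1 → T (φ v) = T 1 - Fintype.card V) :
    ∀ v, v ≠ 1 → T (φ v * x) = T x - Fintype.card V := by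
  let xa : alternatingGroup α := ⟨x, mem_alternatingGroup.2 hx⟩
  have := disjoint_shift h (liftA φ hφ) xa (fun v => Subtype.ext (hcomm v)) (by
    have : orderOf xa = orderOf x := by
      rw [← Subgroup.orderOf_coe]
    rw [this]
    exact hodd) hinv hval
  exact this

theorem cut_commute {g : Perm α} {x : α} (m : ℕ) :
    Commute (g ^ m) ((cyc g m x)⁻¹ * g) := by
  have h1 : g ^ m * cyc g m x * (g ^ m)⁻¹ = cyc g m x := by
    have h2 := cyc_conj g m x (m : ℤ)
    rw [zpow_neg, zpow_natCast] at h2
    rw [h2]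
    unfold cyc
    exact (SameCycle.cycleOf_eq (sameCycle_apply_right.2 (SameCycle.refl _ _))).symm
  have h2 : Commute (g ^ m) (cyc g m x) := by
    rw [mul_inv_eq_iff_eq_mul] at h1
    exact h1
  exact h2.inv_right.mul_right (Commute.pow_self g m)

theorem cut_safe {g : Perm α} {x : α} {q m : ℕ} (hq : 1 < q) (hm : 1 < m)
    (h : HasPer g x (q * m)) : Safe ((cyc g m x)⁻¹ * g) := by
  classical
  have hm0 : 0 < m := by omega
  have hns := cut_not_sameCycle hq hm0 h
  have hk := cut_commute (g := g) (x := x) m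
  have hx'x : ((cyc g m x)⁻¹ * g) x ≠ x := by
    have h1 := cut_pow hm0 h 1 hm
    rw [pow_one, pow_one] at h1
    rw [h1]
    exact h.ne_one.2 (by nlinarith)
  set y : Perm α := (cyc g m x)⁻¹ * g with hy
  rw [safe_iff]
  rintro ⟨-, -, h3⟩
  rw [← Multiset.nodup_iff_count_le_one, cycleType_def,
    Multiset.nodup_map_iff_inj_on y.cycleFactorsFinset.nodup] at h3
  have hc1 : y.cycleOf x ∈ y.cycleFactorsFinset := by
    rw [cycleOf_mem_cycleFactorsFinset_iff, mem_support]
    exact hx'x
  have hc2 : g ^ m * y.cycleOf x * (g ^ m)⁻¹ ∈ y.cycleFactorsFinset := by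
    have h4 := (mem_cycleFactorsFinset_conj y (g ^ m) (y.cycleOf x)).2 hc1
    have h5 : g ^ m * y * (g ^ m)⁻¹ = y := by
      rw [mul_inv_eq_iff_eq_mul]
      exact hk.eq
    rwa [h5] at h4
  have h6 := h3 _ hc1 _ hc2 (by
    simp only [Function.comp_apply]
    rw [← sum_cycleType, ← sum_cycleType, cycleType_conj])
  -- evaluate at g^m x
  have h7 : y.cycleOf x ((g ^ m) x) = (g ^ m) x := cycleOf_apply_of_not_sameCycle hns
  have h8 : (g ^ m * y.cycleOf x * (g ^ m)⁻¹) ((g ^ m) x) = (g ^ m) (y x) := by
    rw [mul_apply, mul_apply, inv_ap, cycleOf_apply_self]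
  rw [← h6, h7] at h8
  exact hx'x ((g ^ m).injective h8).symm

theorem cycleType_zpow_mul {z x' : Perm α} {q : ℕ} (hz : z.IsCycle) (hzc : #z.support = q)
    (hd : Disjoint z x') {v : Perm α} (hv : v ∈ Subgroup.zpowers z) (hv1 : v ≠ 1)
    (hvq : v ^ q = 1) (hq : q.Prime) : (v * x').cycleType = (z * x').cycleType := by
  have hdv : Disjoint v x' := by
    obtain ⟨k, rfl⟩ := hv
    have := hd.zpow_disjoint_zpow k 1
    rwa [zpow_one] at this
  have hzq : z ^ q = 1 := by
    rw [← hzc, ← hz.orderOf]
    exact pow_orderOf_eq_one z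
  rw [hdv.cycleType_mul, hd.cycleType_mul]
  congr 1
  rw [card_cycleType_of_prime hq hvq, card_cycleType_of_prime hq hzq,
    supp_of_mem_zpowers hz hv hv1]

theorem lemmaTA (hT : TwoA T r) {u : ℕ} (hu : Odd u)
    (hup : ∀ q : ℕ, q.Prime → q ∣ u → 2 * q + 2 ≤ Fintype.card α)
    (g : Perm α) (hg : g ^ u = 1)
    (hsafe : Safe g ∨ ∃ (x : α) (q m : ℕ), q.Prime ∧ 1 < m ∧ HasPer g x (q * m)) :
    T g = (r : ℂ) - #g.support := by
  classical
  induction hN : N g using Nat.strong_induction_on generalizing g with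
  | _ N0 ih =>
  subst hN
  have IH : ∀ y : Perm α, N y < N g → y ^ u = 1 → Safe y → T y = (r : ℂ) - #y.support :=
    fun y hy hs hsf => ih _ hy y hs (Or.inl hsf) rfl
  have hgs : sign g = 1 := sign_of_odd_pow hu hg
  by_cases hg1 : g = 1
  · subst hg1
    rw [hT.hr]
    simp
  -- properties of prime divisors
  have hprops : ∀ (x : α) (q m : ℕ), q.Prime → HasPer g x (q * m) →
      q ∣ u ∧ q ≠ 2 ∧ 2 * q + 2 ≤ Fintype.card α := by
    intro x q m hq hl
    have hqu : q ∣ u := dvd_trans (Dvd.intro _ rfl) (hl.dvd_of_pow hg)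
    refine ⟨hqu, ?_, hup q hq hqu⟩
    rintro rfl
    exact absurd (odd_of_dvd hqu hu) (by decide)
  by_cases hcomp : ∃ (x : α) (q m : ℕ), q.Prime ∧ 1 < m ∧ HasPer g x (q * m)
  · obtain ⟨x, q, m, hq, hm1, hl⟩ := hcomp
    obtain ⟨hqu, hq2, hqn⟩ := hprops x q m hq hl
    have hm : 0 < m := by omega
    have hz := cyc_isCycle hq.one_lt hm hl
    have hzc := cyc_card hq hm hl
    have hzq := cyc_pow hl
    have hzs : sign (cyc g m x) = 1 := sign_of_odd_pow (hq.odd_of_ne_two hq2) hzq
    have hx'u := cut_pow_eq_one hm hl hg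
    have hx'N := cut_N hq.one_lt hm hl
    have hx'θ := IH _ hx'N hx'u (cut_safe hq.one_lt hm1 hl)
    have hs : T ((cyc g m x)⁻¹ * g) = T g := by
      refine split_conjA hT.heil hgs hzs (fun i => cyc_commute g m x i) ?_
      intro E _ _ φ κ a b hφ ha hb hmult hab
      have h1 : g * cyc g m x * g⁻¹ = cyc g m (g x) := by
        have := cyc_conj g m x 1
        rw [zpow_one, zpow_neg_one] at this
        exact this
      have hdis : Disjoint (φ a : Perm α) (φ b) := by
        rw [ha, hb, h1]
        apply cycleOf_disjoint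
        have := not_sameCycle_of hl (i := 1) (by
          intro h'
          have h'' : m ∣ 1 := by exact_mod_cast h'
          have := Nat.le_of_dvd one_pos h''
          omega)
        rwa [zpow_one] at this
      have hcyc2 : (φ b : Perm α).IsCycle := by
        rw [hb]
        exact hz.conj
      have hcard2 : #(φ b : Perm α).support = q := by
        rw [hb, ← sum_cycleType, cycleType_conj, sum_cycleType]
        exact hzc
      have h2 := x11A hT hq hq2 hqn φ hφ κ a b (by rw [ha]; exact hz) (by rw [ha]; exact hzc)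
        hcyc2 hcard2 hdis hmult
      rcases h2 with h2 | h2
      · exact h2
      · rw [hab, h2]
    rw [← hs, hx'θ, cut_support hq.one_lt hm1 hl]
  · have hsafe' : Safe g := hsafe.resolve_right hcomp
    obtain ⟨x, hx⟩ : ∃ x, g x ≠ x := by
      by_contra hcon
      push Not at hcon
      exact hg1 (Equiv.ext hcon)
    obtain ⟨l, hl⟩ := exists_per g x
    have hl1 := hl.ne_one.1 hx
    obtain ⟨q, hq, m, rfl⟩ := Nat.exists_prime_and_dvd hl1
    obtain ⟨hqu, hq2, hqn⟩ := hprops x q m hq hl
    have hm : 0 < m := Nat.pos_of_mul_pos_left hl.1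
    have hm' : m = 1 := by
      by_contra hne
      exact hcomp ⟨x, q, m, hq, by omega, hl⟩
    subst hm'
    have hz := cyc_isCycle hq.one_lt hm hl
    have hzc := cyc_card hq hm hl
    have hzq := cyc_pow hl
    have hx'u := cut_pow_eq_one hm hl hg
    have hx'N := cut_N hq.one_lt hm hl
    have hd := cyc_one_disjoint g x
    set z := cyc g 1 x with hzdef
    set x' := z⁻¹ * g with hx'def
    have hq3 : 3 ≤ q := by
      have := hq.two_le
      omega
    have hzx : z * x' = g := by
      rw [hx'def]
      group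
    have hsupp : #g.support = q + #x'.support := by
      conv_lhs => rw [← hzx]
      rw [hd.card_support_mul, hzc]
    have hgn : #g.support ≤ Fintype.card α := Finset.card_le_univ _
    have hx'safe : Safe x' := safe_of_card (by omega)
    have hx'θ := IH _ hx'N hx'u hx'safe
    have hx's : sign x' = 1 := sign_of_odd_pow hu hx'u
    let V := Subgroup.zpowers z
    let _ : Fintype V := Fintype.ofFinite V
    let _ : CommGroup V := { (inferInstance : Group V) with
      mul_comm := fun a b => by
        obtain ⟨a, i, rfl⟩ := a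
        obtain ⟨b, j, rfl⟩ := b
        apply Subtype.ext
        simp only [Subgroup.coe_mul]
        rw [← zpow_add, ← zpow_add, add_comm] }
    have hVcard : Fintype.card V = q := by
      rw [← Nat.card_eq_fintype_card, Nat.card_zpowers, hz.orderOf, hzc]
    have hdV : ∀ v : V, Disjoint (v : Perm α) x' := by
      rintro ⟨_, k, rfl⟩
      have := hd.zpow_disjoint_zpow k 1
      rwa [zpow_one] at this
    have hne : (⟨z, Subgroup.mem_zpowers z⟩ : V) ≠ 1 := by
      intro h
      exact hz.ne_one (congrArg Subtype.val h)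
    have hVq : ∀ v : V, (v : Perm α) ^ q = 1 := fun v => pow_of_mem_zpowers hzq v.2
    have hVs : ∀ v : V, sign (v : Perm α) = 1 := fun v =>
      sign_of_odd_pow (hq.odd_of_ne_two hq2) (hVq v)
    have key := disjoint_shiftA hT.heil V.subtype hVs hx's
      (fun v => by
        rw [mul_inv_eq_iff_eq_mul]
        exact (hdV v).commute.symm)
      (odd_of_dvd (orderOf_dvd_of_pow_eq_one hx'u) hu)
      (fun v => by
        have hc : ((v : Perm α) * x'⁻¹).cycleType = ((v : Perm α) * x').cycleType := by
          rw [← isConj_iff_cycleType_eq]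
          exact isConj_disjoint_inv (hdV v)
        refine hT.heil.of_isConj ?_ ?_ (isConj_disjoint_inv (hdV v))
        · rw [Perm.sign_mul, Perm.sign_inv, hx's, mul_one]
          exact hVs v
        · change Safe ((v : Perm α) * x'⁻¹)
          rw [safe_congr (g' := (v : Perm α) * x') hc]
          by_cases hv1 : (v : Perm α) = 1
          · rw [hv1, one_mul]
            exact hx'safe
          · rw [safe_congr (g' := g)]
            · exact hsafe'
            · rw [cycleType_zpow_mul hz hzc hd v.2 hv1 (hVq v) hq, hzx])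
      (fun v hv => by
        have hv1 : (v : Perm α) ≠ 1 := fun h => hv (Subtype.ext h)
        rw [hT.hr, hVcard]
        exact (lemmaQA hT hq hq2 hqn).1 _ (hVq v)
          (by rw [V.subtype_apply, supp_of_mem_zpowers hz v.2 hv1, hzc]))
      ⟨z, Subgroup.mem_zpowers z⟩ hne
    rw [hVcard] at key
    have hθ : T g = T x' - q := by
      rw [← key]
      change T g = T (z * x')
      rw [hzx]
    rw [hθ, hx'θ, hsupp]
    push_cast
    ring

end Pool.Agent.H7.HB
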